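import Pool.Agent.Helper81.AD2.Alg
import Pool.Agent.Helper88.AD.Upper

/-! MAIN: assembly of the upper bound. -/

namespace Pool.Agent.Helper14.AD2.MAIN

open Pool.Agent.Helper88.AD Pool.Agent.Helper81.AD2 Module

variable {d : ℕ}

/-- The action as a monoid homomorphism. -/
noncomputable def actH (d : ℕ) : Equiv.Perm (Fin d) →* (V d →ₗ[ℚ] V d) where
  toFun := act
  map_one' := act_one
  map_mul' := act_mul

theorem card_span_le (S : Finset (V d)) :
    finrank ℚ (Submodule.span ℚ (S : Set (V d))) ≤ S.card := finrank_span_finset_le_card S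

theorem sum_cls (hfin : (Cls d).Finite) (m : ℕ) :
    ∑ n ∈ Finset.range m, {c ∈ Cls d | Multiset.card c.1 = n + 1}.ncard ≤ (Cls d).ncard := by
  classical
  have h1 : ∀ n, {c ∈ Cls d | Multiset.card c.1 = n + 1}.ncard =
      (hfin.toFinset.filter fun c => Multiset.card c.1 = n + 1).card := by
    intro n
    rw [← Set.ncard_coe_finset]
    congr 1
    ext c
    simp
  rw [Set.ncard_eq_toFinset_card _ hfin]
  rw [Finset.sum_congr rfl fun n _ => h1 n, ← Finset.card_biUnion]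
  · apply Finset.card_le_card
    intro c hc
    rw [Finset.mem_biUnion] at hc
    obtain ⟨n, _, hn⟩ := hc
    exact (Finset.mem_filter.1 hn).1
  · intro n _ n' _ hnn
    rw [Function.onFun, Finset.disjoint_left]
    intro c hc hc'
    have h1 := (Finset.mem_filter.1 hc).2
    have h2 := (Finset.mem_filter.1 hc').2
    exact hnn (by omega)

theorem t (hSPAN : S_SPAN) (hCLS : S_CLS) (hTLL : S_TLL) (hINV : S_INV) (hDN1 : S_DN1)
    (hSTR : S_STR) (hDN2 : S_DN2) (hCMP : S_CMP) (hCAN : S_CAN) (hRW : S_RW) (hINVAR : S_INVAR) :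
    S_MAIN := by
  intro d
  rcases Nat.eq_zero_or_pos d with rfl | hd
  · refine (finrank_AI_le 0).trans ?_
    simp [bd]
  have hF0 : F d 0 = ⊥ := (s_FTOP d).2 hd
  have hFt : F d (2 * d) = ⊤ := (s_FTOP d).1
  have h1 : ∀ n < 2 * d, N1 d ⊓ F d (n + 1) ≤ F d n ⊔ DD d (n + 1) := by
    refine hSTR (V d) (2 * d) (F d) (DD d) (N1 d)
      (fun n => {c ∈ Cls d | Multiset.card c.1 = n + 1}.ncard) (F_mono d) hF0 hFt
      (fun n _ => hDN1 d (n + 1)) ?_ ?_
    · intro n _
      obtain ⟨S, hS, hle⟩ := hSPAN d n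
      refine (Submodule.finrank_mono hle).trans ?_
      refine (Submodule.finrank_add_le_finrank_add_finrank _ _).trans ?_
      exact Nat.add_le_add_left ((card_span_le S).trans hS) _
    · refine le_trans ?_ (hINV d)
      rw [hTLL d]
      exact Nat.add_le_add_right ((sum_cls (hCLS d).1 _).trans (hCLS d).2) _
  have h2 : ∀ n < 2 * d, N1 d ⊓ F d (n + 1) ≤ N2 d ⊔ F d n := by
    intro n hn
    refine (h1 n hn).trans ?_
    rw [sup_le_iff]
    exact ⟨le_sup_right, hDN2 d n⟩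
  have h3 := hCMP (V d) (Equiv.Perm (Fin d)) (actH d) (2 * d) (F d) (N1 d) (N2 d) (F_mono d)
    hF0 hFt (fun g n => ((hINVAR d).1 g).1 n) (fun g => ((hINVAR d).1 g).2.1)
    (fun g => ((hINVAR d).1 g).2.2) h2
  have h4 : finrank ℚ (V d ⧸ (N2 d ⊔ RN d)) ≤ finrank ℚ (V d ⧸ (N1 d ⊔ RN d)) := h3
  have h5 : N2 d ⊔ RN d ≤ relI d := sup_le (hRW d) (hINVAR d).2
  have h6 : finrank ℚ (AI d) ≤ finrank ℚ (V d ⧸ (N2 d ⊔ RN d)) :=
    LinearMap.finrank_le_finrank_of_surjective (f := Submodule.factor h5)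
      (Submodule.factor_surjective _)
  exact h6.trans (h4.trans (hCAN d))

end Pool.Agent.Helper14.AD2.MAIN
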